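import Pool.Agent.H681R2.GB.ENsys

/-!
# Cofinality: from relative proof systems to ordinary ones
-/

namespace Pool.Agent.H681R2.GB

open Pool.Agent.NPC

variable {X Y : Orc} {next : List Bool → List Bool} {p : Polynomial ℕ}
  {σ : List (List Bool × Bool)}

theorem ext_tab_append {ρ : List (List Bool × Bool)} (h : Ext X σ) : Ext (tab (σ ++ ρ)) σ := by
  rintro ⟨q, b⟩ hr
  have h1 : (q, b) ∈ σ.filter (fun r => decide (r.1 = q)) := by simp [hr]
  simp only [tab, List.filter_append]
  cases hh : (σ.filter (fun r => decide (r.1 = q))) with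
  | nil => rw [hh] at h1; simp at h1
  | cons r l =>
    simp only [List.cons_append, List.head?_cons, Option.elim_some]
    have h2 : r ∈ σ.filter (fun r => decide (r.1 = q)) := by rw [hh]; simp
    simp only [List.mem_filter, decide_eq_true_eq] at h2
    have h3 := h r h2.1
    have h4 := h _ hr
    rw [h2.2] at h3
    simp only at h4
    rw [← h3, h4]

theorem orcs_map_inl (φ : Fm Var) : orcs (φ.map Sum.inl : Fm RAtom).rpn = [] := by
  rw [List.eq_nil_iff_forall_not_mem]
  intro l hl
  rw [mem_orcs, rpn_map] at hl
  obtain ⟨t, _, ht⟩ := List.mem_map.1 hl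
  rcases t with s | o
  · simp [tmap] at ht
  · simp [tmap] at ht

theorem deT_map_inl (φ : Fm Var) : deT (φ.map Sum.inl : Fm RAtom).rpn = φ.rpn := by
  rw [rpn_map, deT, List.map_map]
  conv_rhs => rw [← List.map_id φ.rpn]
  apply List.map_congr_left
  rintro (s | o) _ <;> rfl

theorem map_inl_injective : Function.Injective (Fm.map Sum.inl : Fm Var → Fm RAtom) := by
  intro φ ψ h
  apply rpn_injective
  rw [← deT_map_inl φ, ← deT_map_inl ψ, h]

/-- The ordinary formula `p → p`. -/
def φ0 : Fm Var := Fm.imp (Fm.atom []) (Fm.atom [])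

theorem φ0_mem : φ0.code ∈ TAUT := ⟨φ0, rfl, fun v => by simp [φ0, Fm.eval]⟩

theorem c0_eq : c0 = (φ0.map Sum.inl : Fm RAtom).code := rfl

/-- Data of proofs. -/
abbrev DatR : Type := List (List Bool × Bool) × List Bool

/-- The ordinary proof system attached to a relative proof system and a table `σ`. -/
def FR (next : List Bool → List Bool) (p : Polynomial ℕ) (σ : List (List Bool × Bool))
    (u : List Bool) : List Bool :=
  (unbits DatR u.tail).elim φ0.code (fun d =>
    (unbits (List (Tok RAtom)) (oRun next p (tab (σ ++ d.1)) d.2)).elim φ0.code (fun ts =>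
      if u.head? = some false then (if (orcs ts).isEmpty = true then bits (deT ts) else φ0.code)
      else bits (hatT (σ ++ tr next d.2 (ans next (tab (σ ++ d.1)) d.2 (p.eval d.2.length))) ts)))

theorem poly_FR (hn : Poly next) : Poly (FR next p σ) := by
  unfold FR
  have h1 : Poly (fun u : List Bool => unbits DatR u.tail) := poly_unbits' (Poly.tail Poly.id)
  have hσ : Poly (fun x : List Bool × DatR => σ ++ x.2.1) :=
    Poly.append (NPC.Poly.const σ) (Poly.fst (Poly.snd Poly.id))
  have hw : Poly (fun x : List Bool × DatR => x.2.2) := Poly.snd (Poly.snd Poly.id)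
  have h2 : Poly (fun x : List Bool × DatR => unbits (List (Tok RAtom))
      (oRun next p (tab (σ ++ x.2.1)) x.2.2)) := poly_unbits' (poly_oRun hn p hσ hw)
  have h3 : Poly (fun x : List Bool × DatR =>
      tr next x.2.2 (ans next (tab (σ ++ x.2.1)) x.2.2 (p.eval x.2.2.length))) :=
    poly_tr hn hw (poly_ans hn p hσ hw)
  have h4 : Poly (fun y : (List Bool × DatR) × List (Tok RAtom) => bits (hatT (σ ++
      tr next y.1.2.2 (ans next (tab (σ ++ y.1.2.1)) y.1.2.2 (p.eval y.1.2.2.length))) y.2)) :=
    poly_bits' (poly_hatT (Poly.append (NPC.Poly.const σ) (h3.comp (Poly.fst Poly.id)))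
      (Poly.snd Poly.id))
  have h5 : Poly (fun y : (List Bool × DatR) × List (Tok RAtom) => decide ((orcs y.2).isEmpty = true)) :=
    Poly.decide_bool (Poly.isEmpty (poly_orcs (Poly.snd Poly.id)))
  have h6 : Poly (fun y : (List Bool × DatR) × List (Tok RAtom) => bits (deT y.2)) :=
    poly_bits' (poly_deT (Poly.snd Poly.id))
  have h7 : Poly (fun y : (List Bool × DatR) × List (Tok RAtom) =>
      decide (y.1.1.head? = some false)) :=
    Poly.dec_eq (Poly.head? (Poly.fst (Poly.fst Poly.id))) (NPC.Poly.const _)
  have h8 := Poly.ite h7 (Poly.ite h5 h6 (NPC.Poly.const φ0.code)) h4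
  have h9 := Poly.optElim (h := fun (x : List Bool × DatR) (ts : List (Tok RAtom)) =>
      if x.1.head? = some false then (if (orcs ts).isEmpty = true then bits (deT ts) else φ0.code)
      else bits (hatT (σ ++ tr next x.2.2 (ans next (tab (σ ++ x.2.1)) x.2.2
        (p.eval x.2.2.length))) ts)) h2 (NPC.Poly.const φ0.code) h8
  exact Poly.optElim (h := fun (u : List Bool) (d : DatR) =>
    (unbits (List (Tok RAtom)) (oRun next p (tab (σ ++ d.1)) d.2)).elim φ0.code (fun ts =>
      if u.head? = some false then (if (orcs ts).isEmpty = true then bits (deT ts) else φ0.code)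
      else bits (hatT (σ ++ tr next d.2 (ans next (tab (σ ++ d.1)) d.2 (p.eval d.2.length))) ts)))
    h1 (NPC.Poly.const φ0.code) h9

theorem FR_sound (hσ : Ext X σ) (hs : ∀ Y, Ext Y σ → ∀ w, oRun next p Y w ∈ TAUTrel Y)
    (u : List Bool) : FR next p σ u ∈ TAUT := by
  unfold FR
  cases h1 : unbits DatR u.tail with
  | none => exact φ0_mem
  | some d =>
    obtain ⟨ρ, w⟩ := d
    rw [Option.elim_some]
    have hY : Ext (tab (σ ++ ρ)) σ := ext_tab_append hσ
    set Y := tab (σ ++ ρ) with hYd
    obtain ⟨φ, hφ, hφt⟩ := hs Y hY w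
    have h2 : unbits (List (Tok RAtom)) (oRun next p Y w) = some φ.rpn := by
      rw [← hφ, Fm.code, unbits_bits]
    simp only [h2, Option.elim_some]
    split_ifs with h3 h4
    · have h5 : orcs φ.rpn = [] := by simpa using h4
      obtain ⟨ψ, rfl⟩ := exists_plain φ h5
      rw [deT_map_inl]
      exact ⟨ψ, rfl, fun v => by rw [← hφt v, eval_map_inl]⟩
    · exact φ0_mem
    · refine ⟨hat (σ ++ tr next w (ans next Y w (p.eval w.length))) φ, ?_, ?_⟩
      · rw [Fm.code, rpn_hat]
      · refine hat_complete (X := Y) (ext_append.2 ⟨hY, ext_tr⟩) fun Z hZ v => ?_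
        rw [ext_append] at hZ
        obtain ⟨φ', hφ', hφt'⟩ := hs Z hZ.1 w
        rw [oRun_congr hZ.2, ← hφ] at hφ'
        rw [← code_injective hφ']
        exact hφt' v

/-- Evaluation of `FR` on honest proofs. -/
theorem FR_honest (hσ : Ext X σ) {b : Bool} {w : List Bool} {φ : Fm RAtom}
    (h : oRun next p X w = φ.code) :
    FR next p σ (b :: bits ((tr next w (ans next X w (p.eval w.length)), w) : DatR)) =
      if b = false then (if (orcs φ.rpn).isEmpty = true then bits (deT φ.rpn) else φ0.code)
      else bits (hatT (σ ++ tr next w (ans next X w (p.eval w.length))) φ.rpn) := by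
  set ρ := tr next w (ans next X w (p.eval w.length)) with hρ
  have h1 : Ext X (σ ++ ρ) := ext_append.2 ⟨hσ, ext_tr⟩
  have h2 := (ext_append.1 (ext_tab h1)).2
  have h3 : ans next (tab (σ ++ ρ)) w (p.eval w.length) = ans next X w (p.eval w.length) :=
    ans_congr h2
  have h4 : oRun next p (tab (σ ++ ρ)) w = oRun next p X w := oRun_congr h2
  unfold FR
  rw [List.tail_cons, unbits_bits, Option.elim_some]
  simp only [h3, h4, h]
  rw [Fm.code, unbits_bits, Option.elim_some, ← hρ]
  cases b <;> simp

theorem isPS_FR (hn : PolyTime next) (hσ : Ext X σ)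
    (hs : ∀ Y, Ext Y σ → ∀ w, oRun next p Y w ∈ TAUTrel Y)
    (hc : TAUTrel X ⊆ Set.range (oRun next p X)) : IsPS (FR next p σ) := by
  refine ⟨PIso.poly_iff.1 (poly_FR (PIso.poly_iff.2 hn)), Set.Subset.antisymm ?_ ?_⟩
  · rintro _ ⟨u, rfl⟩
    exact FR_sound hσ hs u
  · rintro _ ⟨ψ, rfl, h⟩
    obtain ⟨w, hw⟩ := hc ⟨ψ.map Sum.inl, rfl, fun v => by rw [eval_map_inl, h]⟩
    refine ⟨_, (FR_honest hσ (b := false) hw).trans ?_⟩
    rw [if_pos rfl, orcs_map_inl, deT_map_inl]
    rfl

/-! ### Post-processing of oracle computations -/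

/-- Ask the same queries as `next`, but output something else. -/
def post (next K : List Bool → List Bool) (y : List Bool) : List Bool :=
  if (next y).head? = some false then next y else true :: K y

theorem poly_post {K : List Bool → List Bool} (hn : Poly next) (hK : Poly K) :
    Poly (post next K) := by
  unfold post
  exact Poly.ite (Poly.dec_eq (Poly.head? hn) (NPC.Poly.const _)) hn
    (Poly.cons (NPC.Poly.const _) hK)

theorem ans_post {K : List Bool → List Bool} {w : List Bool} {k : ℕ} :
    ans (post next K) X w k = ans next X w k := by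
  induction k with
  | zero => rfl
  | succ k ih =>
    rw [ans_succ, ans_succ, ih, oStep_tab, oStep_tab]
    unfold post
    by_cases h : (next (pairBits w (ans next X w k))).head? = some false
    · simp [h]
    · simp [h]

theorem oRun_post {K : List Bool → List Bool} {w : List Bool}
    (h : (next (pairBits w (ans next X w (p.eval w.length)))).head? ≠ some false) :
    oRun (post next K) p X w = K (pairBits w (ans next X w (p.eval w.length))) := by
  rw [oRun_eq, ans_post, post, if_neg h]
  rfl

theorem head_of_oRun {w : List Bool} {φ : Fm RAtom} (h : oRun next p X w = φ.code) :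
    (next (pairBits w (ans next X w (p.eval w.length)))).head? ≠ some false := by
  intro h1
  rw [oRun_eq, outp, if_neg (by rw [h1]; simp)] at h
  have h2 : (bits φ.rpn).length = 0 := by
    change φ.code.length = 0
    rw [← h]
    rfl
  rw [bits_length] at h2
  have := sz_pos φ.rpn
  omega

/-- The output of the translation of relative proofs. -/
def Kout (next : List Bool → List Bool) (σ : List (List Bool × Bool)) (y : List Bool) :
    List Bool :=
  (unbits (List (Tok RAtom)) (outp (next y))).elim [] (fun ts =>
    if (orcs ts).isEmpty = true then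
      false :: false :: bits ((tr next (unpair y).1 (unpair y).2, (unpair y).1) : DatR)
    else true :: bits ((σ ++ tr next (unpair y).1 (unpair y).2,
      true :: bits ((tr next (unpair y).1 (unpair y).2, (unpair y).1) : DatR), ts) : Dat))

theorem poly_Kout (hn : Poly next) : Poly (Kout next σ) := by
  unfold Kout
  have h1 : Poly (fun y => unbits (List (Tok RAtom)) (outp (next y))) :=
    poly_unbits' (poly_outp hn)
  have h2 : Poly (fun y => tr next (unpair y).1 (unpair y).2) := poly_tr hn poly_up1 poly_up2
  have h3 : Poly (fun y => bits ((tr next (unpair y).1 (unpair y).2, (unpair y).1) : DatR)) :=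
    poly_bits' (Poly.pair h2 poly_up1)
  have h4 : Poly (fun x : List Bool × List (Tok RAtom) =>
      false :: false :: bits ((tr next (unpair x.1).1 (unpair x.1).2, (unpair x.1).1) : DatR)) :=
    Poly.cons (NPC.Poly.const _) (Poly.cons (NPC.Poly.const _) (h3.comp (Poly.fst Poly.id)))
  have h5 : Poly (fun x : List Bool × List (Tok RAtom) =>
      true :: bits ((σ ++ tr next (unpair x.1).1 (unpair x.1).2,
      true :: bits ((tr next (unpair x.1).1 (unpair x.1).2, (unpair x.1).1) : DatR), x.2)
        : Dat)) := by
    refine Poly.cons (NPC.Poly.const _) (poly_bits' (Poly.pair ?_ (Poly.pair ?_ (Poly.snd Poly.id))))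
    · exact Poly.append (NPC.Poly.const σ) (h2.comp (Poly.fst Poly.id))
    · exact Poly.cons (NPC.Poly.const _) (h3.comp (Poly.fst Poly.id))
  have h6 : Poly (fun x : List Bool × List (Tok RAtom) => decide ((orcs x.2).isEmpty = true)) :=
    Poly.decide_bool (Poly.isEmpty (poly_orcs (Poly.snd Poly.id)))
  exact Poly.optElim (h := fun (y : List Bool) (ts : List (Tok RAtom)) =>
    if (orcs ts).isEmpty = true then
      false :: false :: bits ((tr next (unpair y).1 (unpair y).2, (unpair y).1) : DatR)
    else true :: bits ((σ ++ tr next (unpair y).1 (unpair y).2,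
      true :: bits ((tr next (unpair y).1 (unpair y).2, (unpair y).1) : DatR), ts) : Dat))
    h1 (NPC.Poly.const _) (Poly.ite h6 h4 h5)

theorem Kout_honest {w : List Bool} {φ : Fm RAtom} (h : oRun next p X w = φ.code) :
    Kout next σ (pairBits w (ans next X w (p.eval w.length))) =
      if (orcs φ.rpn).isEmpty = true then
      false :: false :: bits ((tr next w (ans next X w (p.eval w.length)), w) : DatR)
    else true :: bits ((σ ++ tr next w (ans next X w (p.eval w.length)),
      true :: bits ((tr next w (ans next X w (p.eval w.length)), w) : DatR), φ.rpn) : Dat) := by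
  unfold Kout
  rw [← oRun_eq, h, Fm.code, unbits_bits, Option.elim_some, unpair_pairBits]

theorem psimRel_FR (hn : PolyTime next) (hσ : Ext X σ) (hX : ∀ w, oRun next p X w ∈ TAUTrel X) :
    PSimRel X (EN (FR next p σ) X) (oRun next p X) := by
  have hP := PIso.poly_iff.2 hn
  refine ⟨oRun (post next (Kout next σ)) p X, ⟨post next (Kout next σ), p,
    PIso.poly_iff.1 (poly_post hP (poly_Kout hP)), fun w => rfl⟩, fun w => ?_⟩
  obtain ⟨φ, hφ, _⟩ := hX w
  rw [oRun_post (head_of_oRun hφ.symm), Kout_honest hφ.symm]
  by_cases ho : (orcs φ.rpn).isEmpty = true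
  · rw [if_pos ho, EN_false, FR_honest hσ hφ.symm, if_pos rfl, if_pos ho]
    have h5 : orcs φ.rpn = [] := by simpa using ho
    obtain ⟨ψ, rfl⟩ := exists_plain φ h5
    rw [deT_map_inl]
    change iotaS ψ.code = _
    rw [iotaS_code, hφ]
  · rw [if_neg ho, EN_true, if_pos, ← hφ]
    · rfl
    · refine ⟨map_eq_iff.2 (ext_append.2 ⟨hσ, ext_tr⟩), ?_, by simpa using ho⟩
      rw [FR_honest hσ hφ.symm, if_neg (by simp)]

end Pool.Agent.H681R2.GB
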