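import Pool.Agent.H681R2.GB.PolyS

/-!
# The relative proof systems attached to ordinary proof systems
-/

namespace Pool.Agent.H681R2.GB

open Pool.Agent.NPC

variable {X : Orc} {f g : List Bool → List Bool}

theorem iotaS_code (φ : Fm Var) : iotaS φ.code = (φ.map Sum.inl : Fm RAtom).code := by
  rw [iotaS, Fm.code, unbits_bits, Option.elim_some, iotaT_eq, ← rpn_map]
  rfl

theorem eval_map_inl (φ : Fm Var) (v : Var → Bool) :
    (φ.map Sum.inl : Fm RAtom).eval (rval X v) = φ.eval v := by
  rw [eval_map]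
  rfl

theorem iotaS_mem {x : List Bool} (hx : x ∈ TAUT) : iotaS x ∈ TAUTrel X := by
  obtain ⟨φ, rfl, h⟩ := hx
  exact ⟨φ.map Sum.inl, (iotaS_code φ).symm, fun v => by rw [eval_map_inl, h]⟩

theorem orcs_append (a b : List (Tok RAtom)) : orcs (a ++ b) = orcs a ++ orcs b := by
  simp [orcs]

theorem exists_plain (φ : Fm RAtom) (h : orcs φ.rpn = []) :
    ∃ ψ : Fm Var, (ψ.map Sum.inl : Fm RAtom) = φ := by
  induction φ with
  | atom a =>
    rcases a with s | l
    · exact ⟨Fm.atom s, rfl⟩
    · simp [Fm.rpn, orcs] at h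
  | neg φ ih =>
    rw [Fm.rpn, orcs_append] at h
    obtain ⟨ψ, rfl⟩ := ih (List.append_eq_nil_iff.1 h).1
    exact ⟨Fm.neg ψ, rfl⟩
  | imp φ φ' ih ih' =>
    rw [Fm.rpn, orcs_append, orcs_append] at h
    obtain ⟨ψ, rfl⟩ := ih (List.append_eq_nil_iff.1 (List.append_eq_nil_iff.1 h).1).1
    obtain ⟨ψ', rfl⟩ := ih' (List.append_eq_nil_iff.1 (List.append_eq_nil_iff.1 h).1).2
    exact ⟨Fm.imp ψ ψ', rfl⟩

/-- What a tautology of the form `hatT ρ ts` says. -/
theorem hatT_mem_TAUT {ρ : List (List Bool × Bool)} {ts : List (Tok RAtom)}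
    (h : bits (hatT ρ ts) ∈ TAUT) (hX : Ext X ρ) : bits ts ∈ TAUTrel X := by
  obtain ⟨ψ, h1, h2⟩ := h
  have h3 : ψ.rpn = hatT ρ ts := bits_injective h1
  obtain ⟨φ, rfl⟩ := readable_of_hatT h3
  rw [← rpn_hat] at h3
  have h4 : ψ = hat ρ φ := rpn_injective h3
  subst h4
  exact ⟨φ, rfl, fun v => hat_sound h2 hX v⟩

theorem EN_false (v : List Bool) : EN f X (false :: v) = iotaS (f v) := rfl

theorem EN_none {u : List Bool} (h1 : u.head? ≠ some false) (h2 : unbits Dat u.tail = none) :
    EN f X u = c0 := by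
  rw [EN, if_neg h1, h2]
  rfl

theorem EN_some {u : List Bool} {d : Dat} (h1 : u.head? ≠ some false)
    (h2 : unbits Dat u.tail = some d) : EN f X u =
      if d.1.map (fun r => X r.1) = d.1.map (fun r => r.2) ∧
      f d.2.1 = bits (hatT d.1 d.2.2) ∧ (orcs d.2.2).isEmpty = false then bits d.2.2 else c0 := by
  rw [EN, if_neg h1, h2]
  rfl

theorem EN_sound (hf : ∀ v, f v ∈ TAUT) (u : List Bool) : EN f X u ∈ TAUTrel X := by
  by_cases h1 : u.head? = some false
  · rw [EN, if_pos h1]
    exact iotaS_mem (hf _)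
  · cases h2 : unbits Dat u.tail with
    | none => rw [EN_none h1 h2]; exact c0_mem
    | some d =>
      rw [EN_some h1 h2]
      split_ifs with h3
      · refine hatT_mem_TAUT (ρ := d.1) ?_ (map_eq_iff.1 h3.1)
        rw [← h3.2.1]
        exact hf _
      · exact c0_mem

theorem EN_true (d : Dat) : EN f X (true :: bits d) =
      if d.1.map (fun r => X r.1) = d.1.map (fun r => r.2) ∧
      f d.2.1 = bits (hatT d.1 d.2.2) ∧ (orcs d.2.2).isEmpty = false then bits d.2.2 else c0 :=
  EN_some (by simp) (by rw [List.tail_cons, unbits_bits])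

theorem EN_complete (hf : TAUT ⊆ Set.range f) {x : List Bool} (hx : x ∈ TAUTrel X) :
    ∃ u, EN f X u = x := by
  obtain ⟨φ, rfl, h⟩ := hx
  by_cases ho : orcs φ.rpn = []
  · obtain ⟨ψ, rfl⟩ := exists_plain φ ho
    obtain ⟨v, hv⟩ := hf ⟨ψ, rfl, fun v => by rw [← h v, eval_map_inl]⟩
    exact ⟨false :: v, by rw [EN_false, hv, iotaS_code]⟩
  · obtain ⟨ρ, hρ, h1⟩ := exists_table (φ := φ) X
    obtain ⟨v, hv⟩ := hf ⟨hat ρ φ, rfl, hat_complete hρ (fun Y hY v => by rw [h1 Y hY, h])⟩
    refine ⟨true :: bits ((ρ, v, φ.rpn) : Dat), ?_⟩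
    rw [EN_true, if_pos]
    · rfl
    · refine ⟨map_eq_iff.2 hρ, ?_, ?_⟩
      · simp only [hv, Fm.code, rpn_hat]
      · simpa using ho

theorem polyTimeRel_EN (hf : PolyTime f) (X : Orc) : PolyTimeRel X (EN f X) :=
  ⟨nextE f, Polynomial.X, PIso.poly_iff.1 (poly_nextE (PIso.poly_iff.2 hf)),
    fun w => (oRun_nextE f X w).symm⟩

theorem isPSRel_EN (hf : IsPS f) (X : Orc) : IsPSRel X (EN f X) := by
  refine ⟨polyTimeRel_EN hf.1 X, Set.Subset.antisymm ?_ ?_⟩
  · rintro _ ⟨u, rfl⟩
    exact EN_sound (fun v => hf.2 ▸ Set.mem_range_self v) u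
  · intro x hx
    exact EN_complete hf.2.ge hx

/-- Ordinary polynomial time computations are computations relative to every oracle. -/
theorem PolyTimeRel.of_polyTime {T : List Bool → List Bool} (hT : PolyTime T) (X : Orc) :
    PolyTimeRel X T := by
  refine ⟨fun y => true :: T (unpair y).1, 0, PIso.poly_iff.1 ?_, fun w => ?_⟩
  · exact Poly.cons (NPC.Poly.const _) ((PIso.poly_iff.2 hT).comp poly_up1)
  · rw [oRun_eq]
    simp [outp, unpair_pairBits]

/-- The translation of proofs. -/
def liftH (h : List Bool → List Bool) (u : List Bool) : List Bool :=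
  if u.head? = some false then false :: h u.tail else
    (unbits Dat u.tail).elim u (fun d => true :: bits ((d.1, h d.2.1, d.2.2) : Dat))

theorem poly_liftH {h : List Bool → List Bool} (hh : Poly h) : Poly (liftH h) := by
  unfold liftH
  have h1 : Poly (fun u : List Bool => false :: h u.tail) :=
    Poly.cons (NPC.Poly.const _) (hh.comp (Poly.tail Poly.id))
  have h2 : Poly (fun u : List Bool => unbits Dat u.tail) := poly_unbits' (Poly.tail Poly.id)
  have h3 : Poly (fun p : List Bool × Dat => true :: bits ((p.2.1, h p.2.2.1, p.2.2.2) : Dat)) :=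
    Poly.cons (NPC.Poly.const _) (poly_bits' (Poly.pair (Poly.fst (Poly.snd Poly.id))
      (Poly.pair (hh.comp (Poly.fst (Poly.snd (Poly.snd Poly.id))))
        (Poly.snd (Poly.snd (Poly.snd Poly.id))))))
  exact Poly.ite (Poly.dec_eq (Poly.head? Poly.id) (NPC.Poly.const _)) h1
    (Poly.optElim (h := fun _ d => true :: bits ((d.1, h d.2.1, d.2.2) : Dat)) h2 Poly.id h3)

theorem EN_liftH {h : List Bool → List Bool} (hh : ∀ w, f (h w) = g w) (u : List Bool) :
    EN f X (liftH h u) = EN g X u := by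
  by_cases h1 : u.head? = some false
  · rw [liftH, if_pos h1, EN_false, EN, if_pos h1, hh]
  · cases h2 : unbits Dat u.tail with
    | none =>
      rw [liftH, if_neg h1, h2, Option.elim_none, EN_none h1 h2, EN_none h1 h2]
    | some d =>
      rw [liftH, if_neg h1, h2, Option.elim_some, EN_true, EN_some h1 h2]
      simp only [hh]

theorem psimRel_EN (h : PSim f g) (X : Orc) : PSimRel X (EN f X) (EN g X) := by
  obtain ⟨h, hh, h1⟩ := h
  exact ⟨liftH h, PolyTimeRel.of_polyTime (PIso.poly_iff.1 (poly_liftH (PIso.poly_iff.2 hh))) X,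
    EN_liftH h1⟩

theorem sim_EN (h : Sim f g) (X : Orc) : Sim (EN f X) (EN g X) := by
  obtain ⟨p, hp⟩ := h
  refine ⟨Polynomial.X + 4 * p + 5, fun u => ?_⟩
  have hq : ∀ n, (Polynomial.X + 4 * p + 5 : Polynomial ℕ).eval n = n + 4 * p.eval n + 5 := by
    intro n
    simp only [Polynomial.eval_add, Polynomial.eval_mul, Polynomial.eval_X,
      Polynomial.eval_ofNat]
  rw [hq]
  by_cases h1 : u.head? = some false
  · obtain ⟨v, hv, h2⟩ := hp u.tail
    refine ⟨false :: v, ?_, ?_⟩
    · have h3 := eval_mono p (show u.tail.length ≤ u.length by simp)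
      simp only [List.length_cons]
      omega
    · rw [EN_false, EN, if_pos h1, h2]
  · cases h2 : unbits Dat u.tail with
    | none => exact ⟨u, by omega, by rw [EN_none h1 h2, EN_none h1 h2]⟩
    | some d =>
      obtain ⟨d1, d2, d3⟩ := d
      obtain ⟨v, hv, h3⟩ := hp d2
      refine ⟨true :: bits ((d1, v, d3) : Dat), ?_, ?_⟩
      · have h4 : sz ((d1, d2, d3) : Dat) = u.tail.length := by
          rw [← bits_length, bits_of_unbits h2]
        have h5 : u.tail.length ≤ u.length := by simp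
        have h6 : sz ((d1, d2, d3) : Dat) = sz d1 + (sz d2 + sz d3 + 1) + 1 := by
          rw [sz_pair, sz_pair]
        have h7 : sz ((d1, v, d3) : Dat) = sz d1 + (sz v + sz d3 + 1) + 1 := by
          rw [sz_pair, sz_pair]
        have h8 := sz_listBool_le v
        have h9 := length_lt_sz d2
        have h10 := eval_mono p (show d2.length ≤ u.length by omega)
        simp only [List.length_cons, bits_length]
        omega
      · rw [EN_true, EN_some h1 h2]
        simp only [h3]

end Pool.Agent.H681R2.GB
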