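import Pool.Agent.H681R2.GB.NotPB

/-!
# The main theorem
-/

namespace Pool.Agent.H681R2.GB

open Pool.Agent.NPC

variable {X : Orc} {f g next nextH : List Bool → List Bool} {p pH q : Polynomial ℕ}
  {σ ρ : List (List Bool × Bool)}

theorem tab_dup : tab (σ ++ (σ ++ ρ)) = tab (σ ++ ρ) := by
  funext q
  simp only [tab, List.filter_append]
  cases σ.filter (fun r => decide (r.1 = q)) <;> simp

/-- Evaluation of `FR` on proofs with a prescribed table. -/
theorem FR_table {z : List Bool} {ψ : Fm Var}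
    (h : oRun next p (tab (σ ++ ρ)) z = (ψ.map Sum.inl : Fm RAtom).code) :
    FR next p σ (false :: bits ((σ ++ ρ, z) : DatR)) = ψ.code := by
  unfold FR
  rw [List.tail_cons, unbits_bits, Option.elim_some]
  simp only [tab_dup, h]
  rw [Fm.code, unbits_bits, Option.elim_some, orcs_map_inl, deT_map_inl]
  rfl

theorem psim_FR (hg : IsPS g) (hH : PolyTime nextH)
    (h : ∀ u, oRun next p (tab (σ ++ ρ)) (oRun nextH pH (tab (σ ++ ρ)) u) =
      EN g (tab (σ ++ ρ)) u) : PSim (FR next p σ) g := by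
  refine ⟨fun v => false :: bits ((σ ++ ρ, oRun nextH pH (tab (σ ++ ρ)) (false :: v)) : DatR),
    PIso.poly_iff.1 ?_, fun v => ?_⟩
  · have h1 : Poly (fun v => oRun nextH pH (tab (σ ++ ρ)) (false :: v)) :=
      poly_oRun (PIso.poly_iff.2 hH) pH (NPC.Poly.const _)
        (Poly.cons (NPC.Poly.const _) Poly.id)
    exact Poly.cons (NPC.Poly.const _) (poly_bits' (Poly.pair (NPC.Poly.const _) h1))
  · obtain ⟨ψ, hψ, _⟩ : g v ∈ TAUT := hg.2 ▸ Set.mem_range_self _
    have h1 := h (false :: v)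
    rw [EN_false, ← hψ, iotaS_code] at h1
    rw [FR_table h1, hψ]

theorem sim_FR (hg : IsPS g)
    (h : ∀ u : List Bool, ∃ v : List Bool, v.length ≤ q.eval u.length ∧
      oRun next p (tab (σ ++ ρ)) v = EN g (tab (σ ++ ρ)) u) : Sim (FR next p σ) g := by
  refine ⟨4 * q.comp (Polynomial.X + 1) + Polynomial.C (sz (σ ++ ρ) + 3), fun w => ?_⟩
  obtain ⟨z, hz, h1⟩ := h (false :: w)
  obtain ⟨ψ, hψ, _⟩ : g w ∈ TAUT := hg.2 ▸ Set.mem_range_self _
  rw [EN_false, ← hψ, iotaS_code] at h1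
  refine ⟨false :: bits ((σ ++ ρ, z) : DatR), ?_, by rw [FR_table h1, hψ]⟩
  have h2 := sz_listBool_le z
  simp only [List.length_cons] at hz
  simp only [Polynomial.eval_add, Polynomial.eval_mul, Polynomial.eval_comp, Polynomial.eval_X,
    Polynomial.eval_one, Polynomial.eval_C, Polynomial.eval_ofNat, List.length_cons, bits_length,
    sz_pair]
  omega

/-- A proof system simulating `FR next p σ` gives a relative proof system simulating
`oRun next p X`. -/
theorem psimRel_of_psim_FR (hn : PolyTime next) (hσ : Ext X σ)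
    (hX : ∀ w, oRun next p X w ∈ TAUTrel X) (h : PSim f (FR next p σ)) :
    PSimRel X (EN f X) (oRun next p X) := by
  obtain ⟨T, hT, h⟩ := h
  have hP := PIso.poly_iff.2 hn
  have hPT := PIso.poly_iff.2 hT
  refine ⟨oRun (post next (fun y => liftH T (Kout next σ y))) p X,
    ⟨post next (fun y => liftH T (Kout next σ y)), p,
    PIso.poly_iff.1 (poly_post hP ((poly_liftH hPT).comp (poly_Kout hP))), fun w => rfl⟩,
    fun w => ?_⟩
  obtain ⟨φ, hφ, _⟩ := hX w
  rw [oRun_post (head_of_oRun hφ.symm), EN_liftH h]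
  have h1 : EN (FR next p σ) X (Kout next σ (pairBits w (ans next X w (p.eval w.length)))) =
      oRun next p X w := by
    rw [Kout_honest hφ.symm]
    by_cases ho : (orcs φ.rpn).isEmpty = true
    · rw [if_pos ho, EN_false, FR_honest hσ hφ.symm, if_pos rfl, if_pos ho]
      have h5 : orcs φ.rpn = [] := by simpa using ho
      obtain ⟨ψ, rfl⟩ := exists_plain φ h5
      rw [deT_map_inl]
      change iotaS ψ.code = _
      rw [iotaS_code, hφ]
    · rw [if_neg ho, EN_true, if_pos, ← hφ]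
      · rfl
      · refine ⟨map_eq_iff.2 (ext_append.2 ⟨hσ, ext_tr⟩), ?_, by simpa using ho⟩
        rw [FR_honest hσ hφ.symm, if_neg (by simp)]
  exact h1

theorem PSim.refl (f : List Bool → List Bool) : PSim f f := ⟨fun w => w, polyTime_id, fun _ => rfl⟩

/-- Outputs of polynomial time oracle computations have polynomial length. -/
theorem length_oRun (hn : PolyTime next) (p : Polynomial ℕ) (X : Orc) :
    ∃ r : Polynomial ℕ, ∀ w, (oRun next p X w).length ≤ r.eval w.length := by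
  obtain ⟨s, hs⟩ := (PIso.poly_iff.2 hn).sz_le
  refine ⟨s.comp (8 * Polynomial.X + 4 * p + 5), fun w => ?_⟩
  rw [oRun_eq]
  set a := ans next X w (p.eval w.length) with ha
  have h1 : (outp (next (pairBits w a))).length ≤ (next (pairBits w a)).length := by
    unfold outp
    split_ifs
    · simp
    · simp
  have h2 := sz_listBool_ge (next (pairBits w a))
  have h3 := hs (pairBits w a)
  have h4 := sz_listBool_le (pairBits w a)
  have h5 : (pairBits w a).length = 2 * w.length + 1 + a.length := by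
    simp [pairBits, List.length_flatMap]
    ring
  have h6 : a.length ≤ p.eval w.length := length_ans_le
  have h7 := eval_mono s (show sz (pairBits w a) ≤ 8 * w.length + 4 * p.eval w.length + 5 by omega)
  simp only [Polynomial.eval_comp, Polynomial.eval_add, Polynomial.eval_mul, Polynomial.eval_X,
    Polynomial.eval_ofNat]
  omega

theorem PSimRel.sim {F G : List Bool → List Bool} (h : PSimRel X F G) : Sim F G := by
  obtain ⟨H, ⟨next, p, hn, hH⟩, h⟩ := h
  obtain ⟨r, hr⟩ := length_oRun hn p X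
  exact ⟨r, fun w => ⟨H w, by rw [hH]; exact hr w, h w⟩⟩

theorem Sim.trans {F G K : List Bool → List Bool} (h : Sim F G) (h' : Sim G K) : Sim F K := by
  obtain ⟨p, hp⟩ := h
  obtain ⟨q, hq⟩ := h'
  refine ⟨p.comp q, fun w => ?_⟩
  obtain ⟨v, hv, h1⟩ := hq w
  obtain ⟨u, hu, h2⟩ := hp v
  refine ⟨u, hu.trans ?_, by rw [h2, h1]⟩
  rw [Polynomial.eval_comp]
  exact eval_mono p hv

/-- The type of polynomial time computable functions. -/
abbrev PT : Type := {f : List Bool → List Bool // PolyTime f}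

theorem isClosed_forall {α : Type} {P : α → Orc → Prop} (h : ∀ a, Local (P a)) :
    IsClosed {X : Orc | ∀ a, P a X} := by
  rw [Set.setOf_forall]
  exact isClosed_iInter fun a => (h a).isClosed

theorem main : ∀ᶠ X in residual Orc,
    (∃ E : (List Bool → List Bool) → (List Bool → List Bool),
      (∀ f, IsPS f → IsPSRel X (E f)) ∧
      (∀ f g, IsPS f → IsPS g → (PSimRel X (E f) (E g) ↔ PSim f g)) ∧
      (∀ f g, IsPS f → IsPS g → (Sim (E f) (E g) ↔ Sim f g)) ∧
      (∀ F, IsPSRel X F → ∃ f, IsPS f ∧ PSimRel X (E f) F)) ∧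
    ((∃ f, POptimal f) ↔ ∃ F, POptimalRel X F) ∧
    ((∃ f, Optimal f) ↔ ∃ F, OptimalRel X F) ∧
    (∀ F, IsPSRel X F → ¬ PolyBounded X F) := by
  -- the closed sets
  have G1 := generic (ι := PT × Polynomial ℕ)
    (fun i => {Y | ∀ w, oRun i.1.1 i.2 Y w ∈ TAUTrel Y})
    (fun i => isClosed_forall fun w => (localF_oRun _ _ w).mem_TAUTrel)
  have G2 := generic (ι := PT × PT × PT × Polynomial ℕ)
    (fun i => {Y | ∀ u, EN i.1.1 Y (oRun i.2.2.1.1 i.2.2.2 Y u) = EN i.2.1.1 Y u})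
    (fun i => isClosed_forall fun u => ((localF_oRun _ _ u).bind
      (G := fun z Y => EN i.1.1 Y z) (fun z => localF_EN _ z)).eq (localF_EN _ u))
  have G3 := generic (ι := PT × PT × Polynomial ℕ)
    (fun i => {Y | ∀ u : List Bool, ∃ v : List Bool, v.length ≤ i.2.2.eval u.length ∧
      EN i.1.1 Y v = EN i.2.1.1 Y u})
    (fun i => isClosed_forall fun u => Local.exists_bounded
      (P := fun v Y => EN i.1.1 Y v = EN i.2.1.1 Y u)
      (fun v => (localF_EN _ v).eq (localF_EN _ u)) _)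
  have G4 := generic (ι := PT × Polynomial ℕ × PT × PT × Polynomial ℕ)
    (fun i => {Y | ∀ u, oRun i.1.1 i.2.1 Y (oRun i.2.2.2.1.1 i.2.2.2.2 Y u) = EN i.2.2.1.1 Y u})
    (fun i => isClosed_forall fun u => ((localF_oRun _ _ u).bind
      (G := fun z Y => oRun i.1.1 i.2.1 Y z) (fun z => localF_oRun _ _ z)).eq (localF_EN _ u))
  have G5 := generic (ι := PT × Polynomial ℕ × PT × Polynomial ℕ)
    (fun i => {Y | ∀ u : List Bool, ∃ v : List Bool, v.length ≤ i.2.2.2.eval u.length ∧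
      oRun i.1.1 i.2.1 Y v = EN i.2.2.1.1 Y u})
    (fun i => isClosed_forall fun u => Local.exists_bounded
      (P := fun v Y => oRun i.1.1 i.2.1 Y v = EN i.2.2.1.1 Y u)
      (fun v => (localF_oRun _ _ v).eq (localF_EN _ u)) _)
  have G6 := generic (ι := PT × Polynomial ℕ × Polynomial ℕ)
    (fun i => {Y | ∀ x : List Bool, (x ∈ TAUTrel Y ↔
      ∃ w : List Bool, w.length ≤ i.2.2.eval x.length ∧ oRun i.1.1 i.2.1 Y w = x)})
    (fun i => isClosed_forall fun x => (local_mem_TAUTrel x).iff (Local.exists_bounded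
      (P := fun w Y => oRun i.1.1 i.2.1 Y w = x)
      (fun w => (localF_oRun _ _ w).local (fun y => y = x)) _))
  filter_upwards [G1, G2, G3, G4, G5, G6] with X G1 G2 G3 G4 G5 G6
  -- cofinality
  have cof : ∀ F, IsPSRel X F → ∃ f, IsPS f ∧ (∀ f', PSim f' f → PSimRel X (EN f' X) F) ∧
      (∀ g, IsPS g → PSimRel X F (EN g X) → PSim f g) ∧
      (∀ g, IsPS g → Sim F (EN g X) → Sim f g) := by
    rintro F ⟨⟨next, p, hn, hF⟩, hr⟩
    have hFe : F = oRun next p X := funext hF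
    subst hFe
    have hX : ∀ w, oRun next p X w ∈ TAUTrel X := fun w => hr ▸ Set.mem_range_self w
    obtain ⟨σ, hσ, hs⟩ := G1 ⟨⟨next, hn⟩, p⟩ hX
    refine ⟨FR next p σ, isPS_FR hn hσ hs hr.ge, fun f' hf' => psimRel_of_psim_FR hn hσ hX hf',
      ?_, ?_⟩
    · rintro g hg ⟨H, ⟨nextH, pH, hH, hH'⟩, h⟩
      obtain ⟨ρ, hρ, hs'⟩ := G4 ⟨⟨next, hn⟩, p, ⟨g, hg.1⟩, ⟨nextH, hH⟩, pH⟩
        (fun u => by rw [← hH', h])
      have h1 : Ext (tab (σ ++ ρ)) ρ := (ext_append.1 (ext_tab (ext_append.2 ⟨hσ, hρ⟩))).2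
      exact psim_FR (ρ := ρ) hg hH (hs' _ h1)
    · rintro g hg ⟨q, hq⟩
      obtain ⟨ρ, hρ, hs'⟩ := G5 ⟨⟨next, hn⟩, p, ⟨g, hg.1⟩, q⟩ hq
      have h1 : Ext (tab (σ ++ ρ)) ρ := (ext_append.1 (ext_tab (ext_append.2 ⟨hσ, hρ⟩))).2
      exact sim_FR (ρ := ρ) hg (hs' _ h1)
  -- reflection
  have refl1 : ∀ f g, IsPS f → IsPS g → (PSimRel X (EN f X) (EN g X) ↔ PSim f g) := by
    intro f g hf hg
    refine ⟨?_, fun h => psimRel_EN h X⟩
    rintro ⟨H, ⟨nextH, pH, hH, hH'⟩, h⟩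
    obtain ⟨ρ, hρ, hs'⟩ := G2 ⟨⟨f, hf.1⟩, ⟨g, hg.1⟩, ⟨nextH, hH⟩, pH⟩
      (fun u => by rw [← hH', h])
    exact psim_of_rel hf hg hH (hs' _ (ext_tab hρ))
  have refl2 : ∀ f g, IsPS f → IsPS g → (Sim (EN f X) (EN g X) ↔ Sim f g) := by
    intro f g hf hg
    refine ⟨?_, fun h => sim_EN h X⟩
    rintro ⟨q, hq⟩
    obtain ⟨ρ, hρ, hs'⟩ := G3 ⟨⟨f, hf.1⟩, ⟨g, hg.1⟩, q⟩ hq
    exact sim_of_rel hf hg (hs' _ (ext_tab hρ))
  refine ⟨⟨fun f => EN f X, fun f hf => isPSRel_EN hf X, refl1, refl2, ?_⟩, ?_, ?_, ?_⟩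
  · intro F hF
    obtain ⟨f, hf, h1, _⟩ := cof F hF
    exact ⟨f, hf, h1 f (PSim.refl f)⟩
  · constructor
    · rintro ⟨f, hf, hopt⟩
      refine ⟨EN f X, isPSRel_EN hf X, fun F hF => ?_⟩
      obtain ⟨f', hf', h1, _⟩ := cof F hF
      exact h1 f (hopt f' hf')
    · rintro ⟨F, hF, hopt⟩
      obtain ⟨f, hf, _, h2, _⟩ := cof F hF
      exact ⟨f, hf, fun g hg => h2 g hg (hopt _ (isPSRel_EN hg X))⟩
  · constructor
    · rintro ⟨f, hf, hopt⟩
      refine ⟨EN f X, isPSRel_EN hf X, fun F hF => ?_⟩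
      obtain ⟨f', hf', h1, _⟩ := cof F hF
      exact Sim.trans (sim_EN (hopt f' hf') X) (h1 f' (PSim.refl f')).sim
    · rintro ⟨F, hF, hopt⟩
      obtain ⟨f, hf, _, _, h2⟩ := cof F hF
      exact ⟨f, hf, fun g hg => h2 g hg (hopt _ (isPSRel_EN hg X))⟩
  · rintro F ⟨⟨next, p, hn, hF⟩, hr⟩ ⟨q, hq⟩
    have hFe : F = oRun next p X := funext hF
    subst hFe
    obtain ⟨σ, hσ, hs⟩ := G6 ⟨⟨next, hn⟩, p, q⟩ (fun x => ⟨fun hx => hq x hx, by
      rintro ⟨w, _, rfl⟩
      exact hr ▸ Set.mem_range_self w⟩)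
    exact not_polyBounded_table hσ hs

end Pool.Agent.H681R2.GB
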