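import Pool.Agent.H681R2.GB.Topo

/-!
# Relative to a table, no sound computation has short outputs for all relativised tautologies
-/

namespace Pool.Agent.H681R2.GB

open Pool.Agent.NPC

variable {next : List Bool → List Bool} {p : Polynomial ℕ} {σ : List (List Bool × Bool)}

theorem poly_lt_two_pow (P : Polynomial ℕ) : ∃ n0, ∀ n, n0 ≤ n → P.eval n < 2 ^ n := by
  have h0 : ∃ C d : ℕ, ∀ k, P.eval k ≤ C * (k + 1) ^ d := by
    induction P using Polynomial.induction_on' with
    | add p q hp hq =>
      obtain ⟨C, d, h⟩ := hp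
      obtain ⟨C', d', h'⟩ := hq
      refine ⟨C + C', d + d', fun k => ?_⟩
      rw [Polynomial.eval_add, add_mul]
      have h1 : (k + 1) ^ d ≤ (k + 1) ^ (d + d') := Nat.pow_le_pow_right (by omega) (by omega)
      have h2 : (k + 1) ^ d' ≤ (k + 1) ^ (d + d') := Nat.pow_le_pow_right (by omega) (by omega)
      exact add_le_add ((h k).trans (Nat.mul_le_mul_left _ h1))
        ((h' k).trans (Nat.mul_le_mul_left _ h2))
    | monomial n a =>
      refine ⟨a, n, fun k => ?_⟩
      rw [Polynomial.eval_monomial]
      exact Nat.mul_le_mul_left _ (Nat.pow_le_pow_left (by omega) _)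
  obtain ⟨C, d, h⟩ := h0
  have h1 := tendsto_pow_const_div_const_pow_of_one_lt d (r := (2 : ℝ)) (by norm_num)
  have h2 : ∀ᶠ n : ℕ in Filter.atTop, (n : ℝ) ^ d / 2 ^ n < 1 / (2 * (C : ℝ) + 1) :=
    h1.eventually (gt_mem_nhds (by positivity))
  obtain ⟨N, hN⟩ := Filter.eventually_atTop.1 h2
  refine ⟨N, fun n hn => ?_⟩
  have h3 := hN (n + 1) (by omega)
  refine lt_of_le_of_lt (h n) ?_
  have h6 : ((C : ℝ) * ((n : ℝ) + 1) ^ d) < 2 ^ n := by
    rw [div_lt_div_iff₀ (by positivity) (by positivity)] at h3
    push_cast at h3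
    rw [pow_succ (2 : ℝ) n] at h3
    have h7 : (0 : ℝ) < ((n : ℝ) + 1) ^ d := by positivity
    nlinarith
  exact_mod_cast h6

/-- The variables `p_0, …, p_{n-1}`. -/
def vars (n : ℕ) : List Var := (List.range n).map (fun i => bits i)

/-- The formula `¬ X(p_0, …, p_{n-1})`. -/
def ng (n : ℕ) : Fm RAtom := Fm.neg (Fm.atom (Sum.inr (vars n)))

theorem map_vars (v : Var → Bool) (n : ℕ) :
    (vars n).map v = (List.range n).map (fun i => v (bits i)) := by
  simp [vars]

theorem ng_mem {Y : Orc} {n : ℕ} :
    (ng n).code ∈ TAUTrel Y ↔ ∀ s : List Bool, s.length = n → Y s = false := by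
  constructor
  · rintro ⟨φ, h1, h2⟩ s hs
    rw [code_injective h1] at h2
    have h3 := h2 (fun t => (unbits ℕ t).elim false (fun i => s.getD i false))
    simp only [ng, Fm.eval, rval, Bool.not_eq_true', map_vars, unbits_bits, Option.elim_some] at h3
    have h4 : (List.range n).map (fun i => s.getD i false) = s := by
      apply List.ext_getElem
      · simp [hs]
      · intro i h5 h6
        simp [h6]
    rwa [h4] at h3
  · intro h
    refine ⟨ng n, rfl, fun v => ?_⟩
    simp only [ng, Fm.eval, rval, Bool.not_eq_true']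
    exact h _ (by simp [vars])

theorem ng_length : ∃ q : Polynomial ℕ, ∀ n, (ng n).code.length ≤ q.eval n := by
  have h1 : Poly (fun l : List Unit => (ng l.length).code) := by
    have h2 : Poly (fun l : List Unit => List.range l.length) := (UPoly.length Poly.id).range
    have h3 : Poly (fun l : List Unit => vars l.length) :=
      NPC.Poly.map (F := fun _ i => bits i) h2 (poly_bits' (Poly.snd Poly.id))
    have h4 : Poly (fun l : List Unit => ([Sum.inl (Sum.inr (vars l.length)), Sum.inr false] :
        List (Tok RAtom))) :=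
      Poly.cons (Poly.inl (Poly.inr h3)) (NPC.Poly.const _)
    exact poly_bits' h4
  obtain ⟨q, hq⟩ := h1.sz_le
  refine ⟨q.comp (2 * Polynomial.X + 1), fun n => ?_⟩
  have h2 := hq (List.replicate n ())
  rw [List.length_replicate] at h2
  have h3 := sz_listBool_ge (ng n).code
  have h4 : sz (List.replicate n ()) ≤ 2 * n + 1 := by
    have := sz_le_length_mul (List.replicate n ()) 1 (by
      intro a _
      exact le_of_eq rfl)
    simpa [mul_comm] using this
  have h5 := eval_mono q h4
  simp only [Polynomial.eval_comp, Polynomial.eval_add, Polynomial.eval_mul, Polynomial.eval_X,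
    Polynomial.eval_one, Polynomial.eval_ofNat]
  omega

theorem exists_bound : ∀ σ : List (List Bool × Bool), ∃ N, ∀ r ∈ σ, r.1.length < N
  | [] => ⟨0, by simp⟩
  | r :: σ => by
    obtain ⟨N, hN⟩ := exists_bound σ
    refine ⟨max N (r.1.length + 1), ?_⟩
    intro r' hr'
    rcases List.mem_cons.1 hr' with rfl | h
    · exact lt_of_lt_of_le (Nat.lt_succ_self _) (le_max_right _ _)
    · exact lt_of_lt_of_le (hN r' h) (le_max_left _ _)

/-- The oracle changed to `true` at `s`. -/
def upd (Y : Orc) (s : List Bool) : Orc := fun t => if t = s then true else Y t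

/-- No sound oracle computation produces all relativised tautologies from inputs of polynomial
length, relative to the oracles extending a given finite table. -/
theorem not_polyBounded_table {q : Polynomial ℕ} {X : Orc} (hσ : Ext X σ)
    (h : ∀ Y, Ext Y σ → ∀ x, (x ∈ TAUTrel Y ↔
      ∃ w : List Bool, w.length ≤ q.eval x.length ∧ oRun next p Y w = x)) : False := by
  obtain ⟨r, hr⟩ := ng_length
  obtain ⟨n0, hn0⟩ := poly_lt_two_pow (p.comp (q.comp r))
  obtain ⟨N, hN⟩ := exists_bound σ
  set n := n0 + N with hn
  have hbig := hn0 n (by omega)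
  simp only [Polynomial.eval_comp] at hbig
  have hY : Ext (tab σ) σ := ext_tab hσ
  have hmem : (ng n).code ∈ TAUTrel (tab σ) := by
    rw [ng_mem]
    intro s hs
    have h1 : σ.filter (fun r => decide (r.1 = s)) = [] := by
      rw [List.filter_eq_nil_iff]
      intro r hr
      have := hN r hr
      simp only [decide_eq_true_eq]
      rintro rfl
      omega
    simp [tab, h1]
  obtain ⟨w, hw, hrun⟩ := (h _ hY _).1 hmem
  set a := ans next (tab σ) w (p.eval w.length) with ha
  have hlen : a.length < 2 ^ n := by
    refine lt_of_le_of_lt (length_ans_le.trans ?_) hbig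
    exact eval_mono p (hw.trans (eval_mono q (hr n)))
  -- a string of length `n` which is not asked
  obtain ⟨s, hs, hsa⟩ : ∃ s : List Bool, s.length = n ∧ ∀ r ∈ tr next w a, r.1 ≠ s := by
    by_contra hcon
    push Not at hcon
    have h1 : Function.Injective (fun v : Fin n → Bool => List.ofFn v) := List.ofFn_injective
    have h2 : (Finset.univ.image (fun v : Fin n → Bool => List.ofFn v)).card = 2 ^ n := by
      rw [Finset.card_image_of_injective _ h1]
      simp
    have h3 : Finset.univ.image (fun v : Fin n → Bool => List.ofFn v) ⊆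
        ((tr next w a).map Prod.fst).toFinset := by
      intro s hs
      obtain ⟨v, _, rfl⟩ := Finset.mem_image.1 hs
      obtain ⟨r, hr, hrs⟩ := hcon (List.ofFn v) (by simp)
      simp only [List.mem_toFinset, List.mem_map]
      exact ⟨r, hr, hrs⟩
    have h4 := Finset.card_le_card h3
    have h5 : ((tr next w a).map Prod.fst).toFinset.card ≤ a.length := by
      refine (List.toFinset_card_le _).trans ?_
      simp [length_tr]
    omega
  have hZ1 : Ext (upd (tab σ) s) σ := by
    intro r hr
    have h1 : r.1 ≠ s := by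
      rintro h2
      have := hN r hr
      rw [h2] at this
      omega
    rw [upd, if_neg h1]
    exact hY r hr
  have hZ2 : Ext (upd (tab σ) s) (tr next w a) := by
    intro r hr
    rw [upd, if_neg (hsa r hr)]
    exact ext_tr r hr
  have h1 : oRun next p (upd (tab σ) s) w = (ng n).code := by
    rw [oRun_congr hZ2, hrun]
  have h2 := (h _ hZ1 _).2 ⟨w, hw, h1⟩
  rw [ng_mem] at h2
  have h3 := h2 s hs
  simp [upd] at h3

end Pool.Agent.H681R2.GB
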