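import Pool.Agent.H681R2.GB.PolyG
import Pool.Agent.H550R2.Iso.Raw

/-!
# Simulating oracle computations with tables, in polynomial time
-/

namespace Pool.Agent.H681R2.GB

open Pool.Agent.NPC

variable {α β : Type} [TEnc α] [TEnc β]

theorem take_eq_zipIdx {β : Type} (l : List β) (n : ℕ) :
    ((l.zipIdx.filter (fun p => decide (p.2 < n))).map Prod.fst) = l.take n := by
  induction l using List.reverseRecOn with
  | nil => simp
  | append_singleton l b ih =>
    rw [List.zipIdx_append, List.filter_append, List.map_append, ih]
    by_cases h : l.length < n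
    · rw [List.take_of_length_le h.le, List.take_of_length_le (by simp; omega)]
      simp [h]
    · rw [List.take_append_of_le_length (by omega)]
      simp [h]

@[fun_prop]
theorem poly_take' {l : α → List β} {n : α → ℕ} (hl : Poly l) (hn : Poly n) :
    Poly (fun a => (l a).take (n a)) := by
  have h : Poly (fun a => ((l a).zipIdx.filter (fun p => decide (p.2 < n a))).map Prod.fst) := by
    fun_prop
  exact h.congr fun a => take_eq_zipIdx _ _

@[fun_prop]
theorem poly_pairBits {x w : α → List Bool} (hx : Poly x) (hw : Poly w) :
    Poly (fun a => pairBits (x a) (w a)) := by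
  unfold pairBits
  fun_prop

@[fun_prop]
theorem poly_tab {r : α → List (List Bool × Bool)} {q : α → List Bool} (hr : Poly r)
    (hq : Poly q) : Poly (fun a => tab (r a) (q a)) := by
  unfold tab
  fun_prop

theorem poly_outp {s : α → List Bool} (hs : Poly s) : Poly (fun a => outp (s a)) := by
  unfold outp
  fun_prop

theorem oStep_tab (next : List Bool → List Bool) (X : Orc) (w a : List Bool) :
    oStep next X w a = if (next (pairBits w a)).head? = some false then
      a ++ [X (next (pairBits w a)).tail] else a := by
  rw [oStep]
  generalize next (pairBits w a) = s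
  rcases s with _ | ⟨_ | _, s⟩ <;> rfl

theorem poly_ans {next : List Bool → List Bool} (hn : Poly next) (p : Polynomial ℕ)
    {r : α → List (List Bool × Bool)} {w : α → List Bool} (hr : Poly r) (hw : Poly w) :
    Poly (fun a => ans next (tab (r a)) (w a) (p.eval (w a).length)) := by
  have h1 : Poly (fun a => List.replicate (p.eval (w a).length) ()) := (UPoly.length hw).eval p
  have h2 : Poly (fun x : α × List Bool => oStep next (tab (r x.1)) (w x.1) x.2) := by
    have h3 : Poly (fun x : α × List Bool => next (pairBits (w x.1) x.2)) := by fun_prop
    have h4 : Poly (fun x : α × List Bool =>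
        if (next (pairBits (w x.1) x.2)).head? = some false then
          x.2 ++ [tab (r x.1) (next (pairBits (w x.1) x.2)).tail] else x.2) := by
      fun_prop
    exact h4.congr fun x => (oStep_tab _ _ _ _).symm
  obtain ⟨q, hq⟩ := hw.sz_le
  have h3 := Poly.iterLen (F := fun a s => oStep next (tab (r a)) (w a) s) (s := fun _ => [])
    h1 (NPC.Poly.const _) h2 ((4 * p + 1).comp q) (by
      intro a k hk
      rw [List.length_replicate] at hk
      change sz ((oStep next (tab (r a)) (w a))^[k] []) ≤ _
      have h4 : ((oStep next (tab (r a)) (w a))^[k] []).length ≤ k := length_ans_le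
      have h5 := sz_listBool_le ((oStep next (tab (r a)) (w a))^[k] [])
      have h6 : (w a).length ≤ q.eval (sz a) := (length_lt_sz (w a)).le.trans (hq a)
      have h7 := eval_mono p h6
      simp only [Polynomial.eval_comp, Polynomial.eval_add, Polynomial.eval_mul,
        Polynomial.eval_one, Polynomial.eval_ofNat]
      omega)
  refine h3.congr fun a => ?_
  rw [List.length_replicate]
  rfl

theorem poly_oRun {next : List Bool → List Bool} (hn : Poly next) (p : Polynomial ℕ)
    {r : α → List (List Bool × Bool)} {w : α → List Bool} (hr : Poly r) (hw : Poly w) :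
    Poly (fun a => oRun next p (tab (r a)) (w a)) := by
  have h1 := poly_ans hn p hr hw
  have h2 : Poly (fun a => outp (next (pairBits (w a)
      (ans next (tab (r a)) (w a) (p.eval (w a).length))))) :=
    poly_outp (hn.comp (poly_pairBits hw h1))
  exact h2.congr fun a => (oRun_eq p).symm

theorem poly_tr {next : List Bool → List Bool} (hn : Poly next)
    {w s : α → List Bool} (hw : Poly w) (hs : Poly s) :
    Poly (fun a => tr next (w a) (s a)) := by
  have h1 : Poly (fun a => List.range (s a).length) := (UPoly.length hs).range
  have h2 : Poly (fun x : α × ℕ => (next (pairBits (w x.1) ((s x.1).take x.2))).tail) :=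
    Poly.tail (hn.comp (poly_pairBits (hw.comp (Poly.fst Poly.id)) (poly_take'
      (hs.comp (Poly.fst Poly.id)) (Poly.snd Poly.id))))
  have h3 : Poly (fun x : α × ℕ => (s x.1).getD x.2 false) := by fun_prop
  exact NPC.Poly.map (F := fun a i => ((next (pairBits (w a) ((s a).take i))).tail,
    (s a).getD i false)) h1 (Poly.pair h2 h3)

/-- From the relativised language back to the ordinary one. -/
def deT (ts : List (Tok RAtom)) : List (Tok Var) :=
  ts.map (fun t => Sum.elim (fun r => Sum.elim (fun s => Sum.inl s) (fun _ => Sum.inl []) r)
    (fun o => Sum.inr o) t)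

@[fun_prop]
theorem poly_deT {ts : α → List (Tok RAtom)} (h : Poly ts) : Poly (fun a => deT (ts a)) := by
  unfold deT
  fun_prop

end Pool.Agent.H681R2.GB
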