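import Pool.Agent.H681R2.GB.Cofinal

/-!
# Reflection: simulations between relative proof systems give ordinary simulations
-/

namespace Pool.Agent.H681R2.GB

open Pool.Agent.NPC

variable {X : Orc} {f g : List Bool → List Bool} {next : List Bool → List Bool}
  {p : Polynomial ℕ} {σ : List (List Bool × Bool)}

/-- If `EN f X z` is the code of an ordinary formula, then this formula has an `f`-proof. -/
theorem reflect_aux (hf : IsPS f) {v0 : List Bool} (h0 : f v0 = φ0.code) {z : List Bool}
    {ψ : Fm Var} (h : EN f X z = iotaS ψ.code) :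
    f (if z.head? = some false then z.tail else v0) = ψ.code := by
  rw [iotaS_code] at h
  by_cases h1 : z.head? = some false
  · rw [if_pos h1]
    rw [EN, if_pos h1] at h
    obtain ⟨χ, hχ, _⟩ : f z.tail ∈ TAUT := hf.2 ▸ Set.mem_range_self _
    rw [← hχ, iotaS_code] at h
    rw [← hχ, map_inl_injective (code_injective h)]
  · rw [if_neg h1, h0]
    have h2 : EN f X z = c0 ∨ ∃ ts, (orcs ts).isEmpty = false ∧ EN f X z = bits ts := by
      cases hd : unbits Dat z.tail with
      | none => exact Or.inl (EN_none h1 hd)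
      | some d =>
        rw [EN_some h1 hd]
        split_ifs with h3
        · exact Or.inr ⟨d.2.2, h3.2.2, rfl⟩
        · exact Or.inl rfl
    rcases h2 with h2 | ⟨ts, h3, h2⟩
    · rw [h2, c0_eq] at h
      rw [map_inl_injective (code_injective h)]
    · exfalso
      rw [h2] at h
      have h4 : ts = (ψ.map Sum.inl : Fm RAtom).rpn := bits_injective h
      rw [h4, orcs_map_inl] at h3
      simp at h3

theorem psim_of_rel (hf : IsPS f) (hg : IsPS g) (hn : PolyTime next)
    (h : ∀ u, EN f (tab σ) (oRun next p (tab σ) u) = EN g (tab σ) u) : PSim f g := by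
  obtain ⟨v0, h0⟩ : φ0.code ∈ Set.range f := hf.2 ▸ φ0_mem
  refine ⟨fun v => if (oRun next p (tab σ) (false :: v)).head? = some false then
    (oRun next p (tab σ) (false :: v)).tail else v0, PIso.poly_iff.1 ?_, fun v => ?_⟩
  · have h1 : Poly (fun v => oRun next p (tab σ) (false :: v)) :=
      poly_oRun (PIso.poly_iff.2 hn) p (NPC.Poly.const σ) (Poly.cons (NPC.Poly.const _) Poly.id)
    exact Poly.ite (Poly.dec_eq (Poly.head? h1) (NPC.Poly.const _)) (Poly.tail h1)
      (NPC.Poly.const _)
  · obtain ⟨ψ, hψ, _⟩ : g v ∈ TAUT := hg.2 ▸ Set.mem_range_self _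
    have h1 := h (false :: v)
    rw [EN_false, ← hψ] at h1
    rw [reflect_aux hf h0 h1, hψ]

theorem sim_of_rel (hf : IsPS f) (hg : IsPS g)
    (h : ∀ u : List Bool, ∃ v : List Bool, v.length ≤ p.eval u.length ∧
      EN f (tab σ) v = EN g (tab σ) u) : Sim f g := by
  obtain ⟨v0, h0⟩ : φ0.code ∈ Set.range f := hf.2 ▸ φ0_mem
  refine ⟨p.comp (Polynomial.X + 1) + Polynomial.C v0.length, fun w => ?_⟩
  obtain ⟨z, hz, h1⟩ := h (false :: w)
  obtain ⟨ψ, hψ, _⟩ : g w ∈ TAUT := hg.2 ▸ Set.mem_range_self _
  rw [EN_false, ← hψ] at h1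
  refine ⟨if z.head? = some false then z.tail else v0, ?_, by rw [reflect_aux hf h0 h1, hψ]⟩
  simp only [Polynomial.eval_add, Polynomial.eval_comp, Polynomial.eval_X, Polynomial.eval_one,
    Polynomial.eval_C]
  simp only [List.length_cons] at hz
  split_ifs with h2
  · have : z.tail.length ≤ z.length := by simp
    omega
  · omega

end Pool.Agent.H681R2.GB
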